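import Mathlib

/-!
# MP_fb3619_al: an elementary abelian group of order `p ^ 2` does not act fixed point freely
A commutative group with two commuting automorphisms of order `p` such that all products but one
are fixed point free is trivial. No finiteness is used.
-/

set_option autoImplicit false

namespace Pool.Agent.FourGp.H8

open Finset

/-- The identity of norms in a ring. -/
theorem ring_norm {R : Type*} [Ring R] {X Y : R} (hc : Commute X Y) (p : ℕ) (hp : 0 < p)
    (hN : ∀ k < p, ∑ i ∈ range p, (X * Y ^ k) ^ i = 0)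
    (hM : ∀ i < p, 0 < i → ∑ k ∈ range p, (Y ^ i) ^ k = 0) : (p : R) = 0 := by
  have h1 : ∑ k ∈ range p, ∑ i ∈ range p, (X * Y ^ k) ^ i = 0 :=
    Finset.sum_eq_zero (fun k hk => hN k (Finset.mem_range.1 hk))
  rw [Finset.sum_comm] at h1
  have h2 : ∀ i ∈ range p, ∑ k ∈ range p, (X * Y ^ k) ^ i =
      X ^ i * ∑ k ∈ range p, (Y ^ i) ^ k := by
    intro i _
    rw [Finset.mul_sum]
    refine Finset.sum_congr rfl (fun k _ => ?_)
    rw [(hc.pow_right k).mul_pow, ← pow_mul, ← pow_mul, mul_comm k i]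
  rw [Finset.sum_congr rfl h2] at h1
  obtain ⟨m, rfl⟩ : ∃ m, p = m + 1 := ⟨p - 1, by omega⟩
  rw [Finset.sum_range_succ'] at h1
  have h3 : ∑ i ∈ range m, X ^ (i + 1) * ∑ k ∈ range (m + 1), (Y ^ (i + 1)) ^ k = 0 := by
    refine Finset.sum_eq_zero (fun i hi => ?_)
    rw [hM (i + 1) (by have := Finset.mem_range.1 hi; omega) (by omega), mul_zero]
  rw [h3, zero_add] at h1
  simpa using h1

variable {A : Type*} [AddCommGroup A]

/-- No elementary abelian group of rank two acts fixed point freely on a group `≠ 0`. -/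
theorem noCC {X Y : AddMonoid.End A} (hc : Commute X Y) {p : ℕ} (hp : p.Prime)
    (hX : X ^ p = 1) (hY : Y ^ p = 1)
    (fX : ∀ k < p, ∀ t : A, (X * Y ^ k) t = t → t = 0)
    (fY : ∀ i < p, 0 < i → ∀ t : A, (Y ^ i) t = t → t = 0) (t : A) : t = 0 := by
  have key : ∀ Z : AddMonoid.End A, Z ^ p = 1 → (∀ t : A, Z t = t → t = 0) →
      ∑ i ∈ range p, Z ^ i = 0 := by
    intro Z hZ hf
    ext t
    have h1 : (Z - 1) * ∑ i ∈ range p, Z ^ i = 0 := by
      rw [mul_geom_sum, hZ, sub_self]
    have h2 := DFunLike.congr_fun h1 t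
    have h3 : Z ((∑ i ∈ range p, Z ^ i) t) - (∑ i ∈ range p, Z ^ i) t = 0 := h2
    exact hf _ (sub_eq_zero.1 h3)
  have h0 : (p : AddMonoid.End A) = 0 := by
    refine ring_norm hc p hp.pos (fun k hk => key _ ?_ (fX k hk)) (fun i hi hi0 => key _ ?_ (fY i hi hi0))
    · rw [(hc.pow_right k).mul_pow, hX, one_mul, ← pow_mul, mul_comm, pow_mul, hY, one_pow]
    · rw [← pow_mul, mul_comm, pow_mul, hY, one_pow]
  -- `X - 1` is nilpotent
  obtain ⟨r, hr⟩ := Commute.exists_add_pow_prime_eq hp (Commute.one_right (X - 1))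
  rw [sub_add_cancel, hX, one_pow, h0, zero_mul, zero_mul, zero_mul, add_zero] at hr
  have hnil : (X - 1) ^ p = 0 := by
    have := hr
    exact (add_eq_right.1 this.symm)
  have hinj : ∀ n : ℕ, ∀ t : A, ((X - 1) ^ n) t = 0 → t = 0 := by
    intro n
    induction n with
    | zero => intro t ht; simpa using ht
    | succ n ih =>
      intro t ht
      rw [pow_succ'] at ht
      have h1 : X (((X - 1) ^ n) t) - ((X - 1) ^ n) t = 0 := ht
      refine ih t (fX 0 hp.pos _ ?_)
      rw [pow_zero, mul_one]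
      exact sub_eq_zero.1 h1
  exact hinj p t (by rw [hnil]; rfl)

end Pool.Agent.FourGp.H8
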