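import Pool.Agent.Lib.MP_fb3619_al.H8.NoiA

/-!
# MP_fb3619_al: `noCC` for conjugation on a commutative subgroup
-/

set_option autoImplicit false

namespace Pool.Agent.FourGp.H8

open scoped IsMulCommutative

variable {G : Type*} [Group G]

/-- The elements which map `S` into itself under conjugation. -/
def Stab (S : Subgroup G) : Submonoid G where
  carrier := {z | ∀ t ∈ S, z * t * z⁻¹ ∈ S}
  mul_mem' := by
    intro z w hz hw t ht
    have := hz _ (hw t ht)
    simpa [mul_assoc] using this
  one_mem' := by
    intro t ht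
    simpa using ht

/-- Conjugation on `S`, in additive notation. -/
def cjA (S : Subgroup G) [IsMulCommutative S] : Stab S →* AddMonoid.End (Additive S) where
  toFun z :=
    { toFun := fun t => Additive.ofMul ⟨z.1 * (Additive.toMul t).1 * z.1⁻¹,
        z.2 _ (Additive.toMul t).2⟩
      map_zero' := by
        apply Additive.toMul.injective
        apply Subtype.ext
        simp
      map_add' := fun s t => by
        apply Additive.toMul.injective
        apply Subtype.ext
        simp [mul_assoc] }
  map_one' := by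
    refine DFunLike.ext _ _ (fun t => ?_)
    apply Additive.toMul.injective
    apply Subtype.ext
    change (1 : G) * (Additive.toMul t).1 * (1 : G)⁻¹ = (Additive.toMul t).1
    simp
  map_mul' z w := by
    refine DFunLike.ext _ _ (fun t => ?_)
    apply Additive.toMul.injective
    apply Subtype.ext
    change (z.1 * w.1) * (Additive.toMul t).1 * (z.1 * w.1)⁻¹ =
      z.1 * (w.1 * (Additive.toMul t).1 * w.1⁻¹) * z.1⁻¹
    simp [mul_assoc]

theorem cjA_fix (S : Subgroup G) [IsMulCommutative S] (z : Stab S) (t : S)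
    (h : cjA S z (Additive.ofMul t) = Additive.ofMul t) : z.1 * t.1 = t.1 * z.1 := by
  have h1 : z.1 * t.1 * z.1⁻¹ = t.1 := congrArg (fun s => ((Additive.toMul s : S) : G)) h
  calc z.1 * t.1 = z.1 * t.1 * z.1⁻¹ * z.1 := by group
    _ = t.1 * z.1 := by rw [h1]

/-- A commutative group `S ≠ 1` admits no group of type `(p, p)` all of whose elements `≠ 1` act
without fixed points. -/
theorem cc_gen (S : Subgroup G) (hS : ∀ s ∈ S, ∀ t ∈ S, s * t = t * s) {x y : G}
    (hx : ∀ t ∈ S, x * t * x⁻¹ ∈ S) (hy : ∀ t ∈ S, y * t * y⁻¹ ∈ S) {p : ℕ} (hp : p.Prime)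
    (hxp : x ^ p = 1) (hyp : y ^ p = 1) (hxy : x * y = y * x)
    (fX : ∀ k < p, ∀ t ∈ S, (x * y ^ k) * t = t * (x * y ^ k) → t = 1)
    (fY : ∀ i < p, 0 < i → ∀ t ∈ S, y ^ i * t = t * y ^ i → t = 1) (t : G) (ht : t ∈ S) :
    t = 1 := by
  have : IsMulCommutative S := ⟨⟨fun a b => Subtype.ext (hS a.1 a.2 b.1 b.2)⟩⟩
  set x' : Stab S := ⟨x, hx⟩ with hx'
  set y' : Stab S := ⟨y, hy⟩ with hy'
  have e1 : x' * y' = y' * x' := Subtype.ext hxy
  have e2 : x' ^ p = 1 := Subtype.ext hxp
  have e3 : y' ^ p = 1 := Subtype.ext hyp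
  have hc : Commute (cjA S x') (cjA S y') := by
    change cjA S x' * cjA S y' = cjA S y' * cjA S x'
    rw [← map_mul, ← map_mul, e1]
  have key := noCC (A := Additive S) (X := cjA S x') (Y := cjA S y') hc hp
    (by rw [← map_pow, e2, map_one]) (by rw [← map_pow, e3, map_one])
    (fun k hk s hs => by
      rw [← map_pow, ← map_mul] at hs
      have h1 := cjA_fix S _ (Additive.toMul s) hs
      have h2 := fX k hk _ (Additive.toMul s).2 h1
      apply Additive.toMul.injective
      exact Subtype.ext h2)
    (fun i hi hi0 s hs => by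
      rw [← map_pow] at hs
      have h1 := cjA_fix S _ (Additive.toMul s) hs
      have h2 := fY i hi hi0 _ (Additive.toMul s).2 h1
      apply Additive.toMul.injective
      exact Subtype.ext h2)
    (Additive.ofMul (⟨t, ht⟩ : S))
  exact congrArg (fun s => ((Additive.toMul s : S) : G)) key

end Pool.Agent.FourGp.H8
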