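import Pool.Agent.Lib.MP_fb3619_al.FP.Base
import Pool.Agent.Lib.MP_fb3619_al.BS.Sd
import Pool.Agent.Lib.MP_fb3619_al.FF.Shu
import Pool.Agent.Lib.MP_fb3619_al.H93.FinA
import Pool.Agent.Lib.MP_fb3619_al.H87.Cyc
import Pool.Agent.Lib.MP_fb3619_al.H8.NoiB

/-!
# MP_fb3619_al: the noise groups (finding 4566, 4575 step 6), application of the finite theorem
-/

set_option autoImplicit false

universe u

namespace Pool.Agent.FourGp.H8

open Pool.Agent.FourGp.FF
open Pool.Agent.FourGp.H47 (Odd')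
open Pool.Agent.FourGp.H99 (LF)
open Pool.Agent.FourGp.FF.Pq (TA mem_TA)
open Pool.Agent.FourGp.FF.Bs (MinC Min0)
open Pool.Agent.FourGp.FF.Fi (cjg Tm AT Fam)
open Pool.Agent.FourGp.FF.Fp (ta_ind ta_mi ta_mi_comm ta_comm ta_fx mi_conj fx_cza fx_czb)

/-! ### General facts -/

section Gen

variable {G : Type u} [Group G]

theorem fin_supp {S : Set G} {x : G} (hx : x ∈ Subgroup.closure S) :
    ∃ T : Set G, T.Finite ∧ T ⊆ S ∧ x ∈ Subgroup.closure T := by
  induction hx using Subgroup.closure_induction with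
  | mem x hx => exact ⟨{x}, Set.finite_singleton x, by simpa using hx,
      Subgroup.subset_closure (Set.mem_singleton x)⟩
  | one => exact ⟨∅, Set.finite_empty, Set.empty_subset _, Subgroup.one_mem _⟩
  | mul x y _ _ hx hy =>
    obtain ⟨T1, f1, s1, m1⟩ := hx
    obtain ⟨T2, f2, s2, m2⟩ := hy
    exact ⟨T1 ∪ T2, f1.union f2, Set.union_subset s1 s2, Subgroup.mul_mem _
      (Subgroup.closure_mono Set.subset_union_left m1)
      (Subgroup.closure_mono Set.subset_union_right m2)⟩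
  | inv x _ hx =>
    obtain ⟨T1, f1, s1, m1⟩ := hx
    exact ⟨T1, f1, s1, Subgroup.inv_mem _ m1⟩

theorem fin_supp_set {S N : Set G} (hN : N.Finite) (h : ∀ x ∈ N, x ∈ Subgroup.closure S) :
    ∃ T : Set G, T.Finite ∧ T ⊆ S ∧ ∀ x ∈ N, x ∈ Subgroup.closure T := by
  classical
  have h1 : ∀ x : N, ∃ T : Set G, T.Finite ∧ T ⊆ S ∧ x.1 ∈ Subgroup.closure T :=
    fun x => fin_supp (h x.1 x.2)
  choose T hT using h1
  have : Finite N := hN
  refine ⟨⋃ x : N, T x, Set.finite_iUnion (fun x => (hT x).1), Set.iUnion_subset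
    (fun x => (hT x).2.1), fun x hx => Subgroup.closure_mono
      (Set.subset_iUnion T ⟨x, hx⟩) (hT ⟨x, hx⟩).2.2⟩

theorem conj_closure {z : G} {X : Set G} {H : Subgroup G} (hX : ∀ x ∈ X, z * x * z⁻¹ ∈ H)
    {y : G} (hy : y ∈ Subgroup.closure X) : z * y * z⁻¹ ∈ H := by
  induction hy using Subgroup.closure_induction with
  | mem x hx => exact hX x hx
  | one => simp [H.one_mem]
  | mul x y _ _ hx hy =>
    have := H.mul_mem hx hy
    simpa [mul_assoc] using this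
  | inv x _ hx =>
    have := H.inv_mem hx
    simpa [mul_assoc] using this

theorem fin_of_LF {D Γ : Subgroup G} (hD : LF D) (hle : Γ ≤ D) (hfg : Γ.FG) : Finite Γ := by
  have h1 : LF Γ := LF_mono hle hD
  have h2 : (⊤ : Subgroup Γ).FG := (Group.fg_def).1 ((Group.fg_iff_subgroup_fg Γ).2 hfg)
  have h3 := h1 ⊤ h2
  exact Finite.of_equiv _ (Subgroup.topEquiv (G := Γ)).toEquiv

theorem odd_card {Γ : Subgroup G} [Finite Γ] (h : ∀ x ∈ Γ, Odd' x) : Odd (Nat.card Γ) := by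
  rw [← Nat.not_even_iff_odd, even_iff_two_dvd]
  intro h2
  have := Fact.mk Nat.prime_two
  obtain ⟨x, hx⟩ := exists_prime_orderOf_dvd_card' (G := Γ) 2 h2
  obtain ⟨n, hn⟩ := h x.1 x.2
  have h3 : x ^ (2 * n + 1) = 1 := Subtype.ext hn
  have h4 := orderOf_dvd_of_pow_eq_one h3
  rw [hx] at h4
  omega

/-- Conjugation by `z` on `Γ`. -/
def cjh (Γ : Subgroup G) (z : G) (hz : ∀ x ∈ Γ, z * x * z⁻¹ ∈ Γ) : Γ →* Γ where
  toFun x := ⟨z * x.1 * z⁻¹, hz _ x.2⟩
  map_one' := Subtype.ext (by simp)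
  map_mul' x y := Subtype.ext (by simp [mul_assoc])

theorem cjh_val (Γ : Subgroup G) (z : G) (hz : ∀ x ∈ Γ, z * x * z⁻¹ ∈ Γ) (x : Γ) :
    (cjh Γ z hz x).1 = z * x.1 * z⁻¹ := rfl

theorem cjh_iter (Γ : Subgroup G) (z : G) (hz : ∀ x ∈ Γ, z * x * z⁻¹ ∈ Γ) (x : Γ) (n : ℕ) :
    ((cjh Γ z hz)^[n] x).1 = z ^ n * x.1 * (z ^ n)⁻¹ := by
  induction n with
  | zero => simp
  | succ n ih =>
    rw [Function.iterate_succ_apply', cjh_val, ih, pow_succ']
    simp [mul_assoc]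

theorem comm_of_cj {z x : G} (h : z * x * z⁻¹ = x) : z * x = x * z := by
  calc z * x = z * x * z⁻¹ * z := by group
    _ = x * z := by rw [h]

theorem cj_of_comm {z x : G} (h : z * x = x * z) : z * x * z⁻¹ = x := by
  rw [h]
  group

end Gen

/-! ### Inputs -/

/-- The finite theorem (board of helper93). -/
def FinS : Prop := ∀ (Γ : Type u) [Group Γ] [Finite Γ] (s g : Γ →* Γ) (q : ℕ)
  [Fact q.Prime], Group.IsSolvable Γ → q ≠ 2 → Pool.Agent.Lib.MP_fb3619_al.H93.Cf s g q →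
  Pool.Agent.Lib.MP_fb3619_al.H93.Fx s ≤ Subgroup.center Γ

/-- LEMMA B (helper4). -/
def LbS : Prop := ∀ (Γ : Type u) [Group Γ] [Finite Γ] (s : Γ →* Γ), Group.IsSolvable Γ →
  Odd (Nat.card Γ) → (∀ x, s (s x) = x) → Subgroup.closure {x : Γ | s x = x⁻¹} = ⊤ →
  ∀ q : ℕ, q.Prime → ¬ q ∣ Nat.card {x : Γ // s x = x⁻¹} → ¬ q ∣ Nat.card Γ

/-! ### The frame -/

variable {G : Type u} [Group G] {K : Subgroup G} {a b c : G}

theorem lf_cz (h : Fr K a b c) (hF : (Fx K a b : Set G).Finite) : LF (Cz K a) := by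
  refine (shu G K a b c h (Cz K a) b cz_le h.bb (fun d hd => h.cz_inv h.bb h.cab.symm hd) ?_).2.2
  refine hF.subset ?_
  rintro w ⟨hw, hwb⟩
  exact mem_Fx.2 ⟨(mem_Cz.1 hw).1, (mem_Cz.1 hw).2, hwb⟩

/-- `F_a` has no subgroup of type `(p, p)`. -/
theorem cc_free (h : Fr K a b c) (hTb : ∃ t ∈ TA K b a, t ≠ 1)
    (o2 : ∀ e ∈ Fx K a b, fi (Cz K a) e → e ≠ 1 → ∀ y, Mi K b a y → y * e = e * y → y = 1)
    {p : ℕ} (hp : p.Prime) {x y : G} (hx : x ∈ Fx K a b) (hxa : fi (Cz K a) x)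
    (hy : y ∈ Fx K a b) (hya : fi (Cz K a) y) (hxp : x ^ p = 1) (hyp : y ^ p = 1)
    (hxy : x * y = y * x) : x ∈ Subgroup.zpowers y ∨ y ∈ Subgroup.zpowers x := by
  by_contra hcon
  rw [not_or] at hcon
  obtain ⟨hc1, hc2⟩ := hcon
  obtain ⟨t, ht, ht1⟩ := hTb
  have hF' : Fx K b a = Fx K a b := (Fr.fx_swap).symm
  have hy1 : y ≠ 1 := fun e => hc2 (e ▸ Subgroup.one_mem _)
  have hcj : ∀ z ∈ Fx K a b, ∀ s ∈ TA K b a, z * s * z⁻¹ ∈ TA K b a := by
    intro z hz s hs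
    have := ta_fx h.swap (f := z⁻¹) (by rw [hF']; exact (Fx K a b).inv_mem hz) hs
    rwa [inv_inv] at this
  refine ht1 (cc_gen (TA K b a) (fun s hs t ht => ta_comm h.swap hs ht) (hcj x hx) (hcj y hy) hp
    hxp hyp hxy ?_ ?_ t ht)
  · intro k _ s hs hsc
    have m1 : y ^ k ∈ HD (Cz K a) := Subgroup.pow_mem _ (mem_HD.2 hya) k
    have m2 : x * y ^ k ∈ HD (Cz K a) := Subgroup.mul_mem _ (mem_HD.2 hxa) m1
    refine o2 (x * y ^ k) ((Fx K a b).mul_mem hx ((Fx K a b).pow_mem hy k)) (mem_HD.1 m2) ?_ s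
      (ta_mi h.swap hs) hsc.symm
    intro e
    apply hc1
    have e2 : x = (y ^ k)⁻¹ := eq_inv_of_mul_eq_one_left e
    rw [e2]
    exact Subgroup.inv_mem _ (Subgroup.pow_mem _ (Subgroup.mem_zpowers y) k)
  · intro i hi hi0 s hs hsc
    have m1 : y ^ i ∈ HD (Cz K a) := Subgroup.pow_mem _ (mem_HD.2 hya) i
    refine o2 (y ^ i) ((Fx K a b).pow_mem hy i) (mem_HD.1 m1) ?_ s (ta_mi h.swap hs) hsc.symm
    intro e
    have d1 := orderOf_dvd_of_pow_eq_one e
    have d2 := orderOf_dvd_of_pow_eq_one hyp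
    rcases (Nat.dvd_prime hp).1 d2 with d3 | d3
    · exact hy1 (orderOf_eq_one_iff.1 d3)
    · rw [d3] at d1
      exact absurd (Nat.le_of_dvd hi0 d1) (by omega)

/-- A tame type: the elements of `F` in the group generated by `D_a⁻` lie in `F_a`. -/
theorem na_fi (h : Fr K a b c) (tm : Tm K a b c a) {n : G}
    (hn : n ∈ Subgroup.closure {u | Mi K a b u}) : fi (Cz K a) n := by
  have h1 : TA K a b ≤ Subgroup.centralizer {n} := by
    intro t ht
    rw [Subgroup.mem_centralizer_singleton_iff]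
    induction hn using Subgroup.closure_induction with
    | mem x hx => exact ta_mi_comm h ht hx
    | one => rw [mul_one, one_mul]
    | mul x y _ _ hx hy =>
      have c1 : Commute t x := hx
      exact (c1.mul_right hy).eq
    | inv x _ hx =>
      have c1 : Commute t x := hx
      exact c1.inv_right.eq
  exact Fp.ind_mono (ta_ind h tm) h1

open Pool.Agent.Lib.MP_fb3619_al.H93 (Cf card_one) in
/-- The main step: type `a`, `g ∈ F_b` of order `q`. -/
theorem noi_ab (fin : FinS.{u}) (lb : LbS.{u}) (h : Fr K a b c)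
    (hF : (Fx K a b : Set G).Finite) (ss : ∀ X : Subgroup G, X ≤ K → Finite X → Group.IsSolvable X) (tm : Tm K a b c a)
    (hTb : ∃ t ∈ TA K b a, t ≠ 1)
    (o2 : ∀ e ∈ Fx K a b, fi (Cz K a) e → e ≠ 1 → ∀ y, Mi K b a y → y * e = e * y → y = 1)
    (o2' : ∀ e ∈ Fx K a b, fi (Cz K b) e → e ≠ 1 → ∀ y, Mi K a b y → y * e = e * y → y = 1)
    (o1 : ∀ f ∈ Fx K a b, fi (Cz K a) f → ∀ g ∈ Fx K a b, fi (Cz K b) g → f * g = g * f)
    {q : ℕ} (hq : q.Prime) {g : G} (hg : g ∈ Fx K a b) (hgb : fi (Cz K b) g) (hg1 : g ≠ 1)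
    (hgq : g ^ q = 1)
    (hmax : ∀ r : ℕ, r.Prime → (∃ n ∈ Fx K a b, n ∈ Subgroup.closure {u | Mi K a b u} ∧
      orderOf n = r) → r ≤ q)
    {n : G} (hn : n ∈ Fx K a b) (hnc : n ∈ Subgroup.closure {u | Mi K a b u}) {u : G}
    (hu : Mi K a b u) : n * u = u * n := by
  classical
  -- the finite group
  obtain ⟨T0, hT0f, hT0s, hT0⟩ := fin_supp_set
    (N := {n | n ∈ Fx K a b ∧ n ∈ Subgroup.closure {u | Mi K a b u}})
    (hF.subset (fun n hn => hn.1)) (fun x hx => hx.2)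
  set T1 : Set G := insert u T0 with hT1
  have hT1f : T1.Finite := hT0f.insert u
  have hT1s : T1 ⊆ {u | Mi K a b u} := by
    rintro x (rfl | hx)
    · exact hu
    · exact hT0s hx
  set X : Set G := (fun p : G × G => p.1 * p.2 * p.1⁻¹) '' ((Fx K a b : Set G) ×ˢ T1) with hX
  have hXf : X.Finite := (hF.prod hT1f).image _
  have hXs : X ⊆ {u | Mi K a b u} := by
    rintro _ ⟨⟨f, x⟩, ⟨hf, hx⟩, rfl⟩
    have := mi_conj h (f := f⁻¹) ((Fx K a b).inv_mem hf) (hT1s hx)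
    rwa [inv_inv] at this
  have hT1X : T1 ⊆ X := by
    intro x hx
    exact ⟨(1, x), ⟨(Fx K a b).one_mem, hx⟩, by simp⟩
  set Γ : Subgroup G := Subgroup.closure X with hΓ
  have hΓcz : Γ ≤ Cz K a := by
    rw [hΓ, Subgroup.closure_le]
    intro x hx
    exact (hXs hx).1
  have hΓK : Γ ≤ K := hΓcz.trans cz_le
  have hΓfg : Γ.FG := (Subgroup.fg_iff Γ).2 ⟨X, rfl, hXf⟩
  have : Finite Γ := fin_of_LF (lf_cz h hF) hΓcz hΓfg
  have hΓb : ∀ x ∈ Γ, b * x * b⁻¹ ∈ Γ := by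
    intro y hy
    refine conj_closure (H := Γ) (fun x hx => ?_) hy
    have e : b⁻¹ = b := inv_eq_of_mul_eq_one_left h.bb
    rw [e, (hXs hx).2]
    exact Γ.inv_mem (Subgroup.subset_closure hx)
  have hΓg : ∀ x ∈ Γ, g * x * g⁻¹ ∈ Γ := by
    intro y hy
    refine conj_closure (H := Γ) (fun x hx => ?_) hy
    obtain ⟨⟨f, x⟩, ⟨hf, hx⟩, rfl⟩ := hx
    refine Subgroup.subset_closure ⟨(g * f, x), ⟨(Fx K a b).mul_mem hg hf, hx⟩, ?_⟩
    simp [mul_assoc]
  have hbi : b⁻¹ = b := inv_eq_of_mul_eq_one_left h.bb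
  have hgbc : g * b = b * g := (mem_Fx.1 hg).2.2
  set s : Γ →* Γ := cjh Γ b hΓb with hs
  set g' : Γ →* Γ := cjh Γ g hΓg with hg'
  have sval : ∀ x : Γ, (s x).1 = b * x.1 * b⁻¹ := fun x => rfl
  have gval : ∀ x : Γ, (g' x).1 = g * x.1 * g⁻¹ := fun x => rfl
  have hodd : Odd (Nat.card Γ) := odd_card (fun x hx => h.odd x (hΓK hx))
  have hsol : Group.IsSolvable Γ := ss Γ hΓK inferInstance
  have := Fact.mk hq
  have hss : ∀ x, s (s x) = x := by
    intro x
    apply Subtype.ext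
    rw [sval, sval, hbi]
    calc b * (b * x.1 * b) * b = (b * b) * x.1 * (b * b) := by group
      _ = x.1 := by rw [h.bb]; group
  have hmi : ∀ x : Γ, s x = x⁻¹ → Mi K a b x.1 := by
    intro x hx
    refine ⟨hΓcz x.2, ?_⟩
    have := congrArg Subtype.val hx
    rw [sval, hbi] at this
    exact this
  have hgen : Subgroup.closure {x : Γ | s x = x⁻¹} = ⊤ := by
    rw [eq_top_iff]
    have h1 : Subgroup.closure (((↑) : Subgroup.closure X → G) ⁻¹' X) = ⊤ :=
      Subgroup.closure_closure_coe_preimage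
    rw [← h1]
    refine Subgroup.closure_mono ?_
    intro x hx
    apply Subtype.ext
    rw [sval, hbi]
    exact (hXs hx).2
  -- fixed points
  have hfixF : ∀ x : Γ, s x = x → x.1 ∈ Fx K a b ∧
      x.1 ∈ Subgroup.closure {u | Mi K a b u} := by
    intro x hx
    refine ⟨mem_Fx.2 ⟨hΓK x.2, (mem_Cz.1 (hΓcz x.2)).2, ?_⟩, Subgroup.closure_mono hXs x.2⟩
    exact (comm_of_cj (congrArg Subtype.val hx)).symm
  have hfi : ∀ x : Γ, s x = x → fi (Cz K a) x.1 := fun x hx => na_fi h tm (hfixF x hx).2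
  have hfix : ∀ x, s x = x ↔ g' x = x := by
    intro x
    constructor
    · intro hx
      apply Subtype.ext
      rw [gval]
      exact cj_of_comm (o1 x.1 (hfixF x hx).1 (hfi x hx) g hg hgb).symm
    · intro hx
      have hxg : g * x.1 = x.1 * g := comm_of_cj (congrArg Subtype.val hx)
      have hy : x⁻¹ * s x = 1 := by
        apply Subtype.ext
        have hyi : s (x⁻¹ * s x) = (x⁻¹ * s x)⁻¹ := by
          rw [map_mul, hss, map_inv, mul_inv_rev, inv_inv]
        refine o2' g hg hgb hg1 _ (hmi _ hyi) ?_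
        have c1 : Commute g x.1 := hxg
        have c2 : Commute g b := hgbc
        have c3 : Commute g (x.1⁻¹ * (b * x.1 * b⁻¹)) :=
          c1.inv_right.mul_right ((c2.mul_right c1).mul_right c2.inv_right)
        exact c3.symm.eq
      exact (inv_mul_eq_one.1 hy).symm
  have hqG : ¬ q ∣ Nat.card Γ := by
    refine lb Γ s hsol hodd hss hgen q hq ?_
    intro hdvd
    have hst : ∀ x : {x : Γ // s x = x⁻¹}, s (g' x.1) = (g' x.1)⁻¹ := by
      intro x
      have hc : s (g' x.1) = g' (s x.1) := by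
        apply Subtype.ext
        rw [sval, gval, gval, sval]
        have e1 : b * g = g * b := hgbc.symm
        have e2 : b⁻¹ * g⁻¹ = g⁻¹ * b⁻¹ := by
          rw [← mul_inv_rev, ← mul_inv_rev, hgbc]
        calc b * (g * x.1.1 * g⁻¹) * b⁻¹ = (b * g) * x.1.1 * (g⁻¹ * b⁻¹) := by group
          _ = (g * b) * x.1.1 * (b⁻¹ * g⁻¹) := by rw [e1, e2]
          _ = _ := by group
      rw [hc, x.2, map_inv]
    set φ : {x : Γ // s x = x⁻¹} → {x : Γ // s x = x⁻¹} := fun x => ⟨g' x.1, hst x⟩ with hφ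
    have hiter : ∀ (k : ℕ) (x : {x : Γ // s x = x⁻¹}), (φ^[k] x).1 = g'^[k] x.1 := by
      intro k x
      induction k with
      | zero => rfl
      | succ k ih => rw [Function.iterate_succ_apply', Function.iterate_succ_apply', ← ih]
    have h1 : Nat.card {x : Γ // s x = x⁻¹} ≡ 1 [MOD q] := by
      refine card_one φ q ?_ ⟨1, by rw [map_one, inv_one]⟩ ?_ ?_
      · intro x
        apply Subtype.ext
        apply Subtype.ext
        rw [hiter, hg', cjh_iter, hgq]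
        simp
      · apply Subtype.ext
        exact map_one g'
      · intro x hx
        have hx' : g' x.1 = x.1 := congrArg Subtype.val hx
        have hxg : g * x.1.1 = x.1.1 * g := comm_of_cj (congrArg Subtype.val hx')
        apply Subtype.ext
        apply Subtype.ext
        exact o2' g hg hgb hg1 _ (hmi _ x.2) hxg.symm
    have h2 := (Nat.modEq_zero_iff_dvd.2 hdvd).symm.trans h1
    have h3 : q ∣ 1 := (Nat.modEq_zero_iff_dvd).1 h2.symm
    exact hq.one_lt.ne' (Nat.dvd_one.1 h3)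
  have hcf : Cf s g' q := by
    refine ⟨hodd, hss, ?_, ?_, hqG, hfix, hgen, ?_, ?_⟩
    · intro x
      apply Subtype.ext
      rw [sval, gval, gval, sval]
      have e1 : b * g = g * b := hgbc.symm
      have e2 : b⁻¹ * g⁻¹ = g⁻¹ * b⁻¹ := by
        rw [← mul_inv_rev, ← mul_inv_rev, hgbc]
      calc b * (g * x.1 * g⁻¹) * b⁻¹ = (b * g) * x.1 * (g⁻¹ * b⁻¹) := by group
        _ = (g * b) * x.1 * (b⁻¹ * g⁻¹) := by rw [e1, e2]
        _ = _ := by group
    · intro x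
      apply Subtype.ext
      rw [hg', cjh_iter, hgq]
      simp
    · refine Pool.Agent.FourGp.H87.zg ?_ ?_
      · exact hodd.of_dvd_nat (Subgroup.card_subgroup_dvd_card _)
      · intro p hp x y hx hy hxy
        have e1 : x.1.1 ^ p = 1 := congrArg (fun z => z.1.1) hx
        have e2 : y.1.1 ^ p = 1 := congrArg (fun z => z.1.1) hy
        have e3 : x.1.1 * y.1.1 = y.1.1 * x.1.1 := congrArg (fun z => z.1.1) hxy
        have hzp : ∀ x y : Pool.Agent.Lib.MP_fb3619_al.H93.Fx s, x.1.1 ∈ Subgroup.zpowers y.1.1 →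
            x ∈ Subgroup.zpowers y := by
          rintro x y ⟨k, hk⟩
          exact ⟨k, Subtype.ext (Subtype.ext (by simpa using hk))⟩
        rcases cc_free h hTb o2 hp (hfixF x.1 x.2).1 (hfi x.1 x.2) (hfixF y.1 y.2).1
          (hfi y.1 y.2) e1 e2 e3 with h1 | h1
        · exact Or.inl (hzp _ _ h1)
        · exact Or.inr (hzp _ _ h1)
    · intro r hr hrd
      have := Fact.mk hr
      obtain ⟨x, hx⟩ := exists_prime_orderOf_dvd_card' (G := Pool.Agent.Lib.MP_fb3619_al.H93.Fx s)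
        r hrd
      have hle : r ≤ q := by
        refine hmax r hr ⟨x.1.1, (hfixF x.1 x.2).1, (hfixF x.1 x.2).2, ?_⟩
        rw [Subgroup.orderOf_coe, Subgroup.orderOf_coe, hx]
      refine lt_of_le_of_ne hle ?_
      rintro rfl
      exact hqG (hrd.trans (Subgroup.card_subgroup_dvd_card _))
  have hq2 : q ≠ 2 := by
    rintro rfl
    have hgK : g ∈ K := (mem_Fx.1 hg).1
    obtain ⟨m, hm⟩ := h.odd g hgK
    apply hg1
    rw [pow_succ, pow_mul, hgq, one_pow, one_mul] at hm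
    exact hm
  have hcen := fin Γ s g' q hsol hq2 hcf
  -- the end
  have hnΓ : n ∈ Γ := Subgroup.closure_mono ((Set.subset_insert u T0).trans hT1X) (hT0 n ⟨hn, hnc⟩)
  have huΓ : u ∈ Γ := Subgroup.subset_closure (hT1X (Set.mem_insert u T0))
  have hnf : (⟨n, hnΓ⟩ : Γ) ∈ Pool.Agent.Lib.MP_fb3619_al.H93.Fx s := by
    apply Subtype.ext
    rw [sval]
    exact cj_of_comm (mem_Fx.1 hn).2.2.symm
  have := Subgroup.mem_center_iff.1 (hcen hnf) ⟨u, huΓ⟩
  exact (congrArg Subtype.val this).symm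

end Pool.Agent.FourGp.H8
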