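import Pool.Agent.Lib.MP_fb3619_al.H8.NoiC
import Pool.Agent.Lib.MP_fb3619_al.FF.Fin

/-!
# MP_fb3619_al: the end of the tame case, preparations (the end is in `H90/Noi.lean`)
-/

set_option autoImplicit false

universe u

namespace Pool.Agent.FourGp.H8

open Pool.Agent.FourGp.FF
open Pool.Agent.FourGp.H47 (Odd')
open Pool.Agent.FourGp.H99 (LF)
open Pool.Agent.FourGp.FF.Pq (TA mem_TA)
open Pool.Agent.FourGp.FF.Bs (MinC Min0)
open Pool.Agent.FourGp.FF.Fi (cjg Tm AT Fam)
open Pool.Agent.FourGp.FF.Fp (ta_ind ta_mi ta_mi_comm ta_comm ta_fx mi_conj fx_cza fx_czb FpfS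
  NneS minC_swap minC_swap' minC_rot mi_c fx_ac)

/-- No homologies: `P_a = 1`, in the case where all three types are tame. -/
def PvS : Prop := ∀ (G : Type u) [Group G] (K : Subgroup G) (a b c : G), MinC K a b c →
  AT K a b c → ∀ f ∈ Fx K a b, (∀ u, Mi K a b u → f * u = u * f) → f = 1

variable {G : Type u} [Group G] {K : Subgroup G} {a b c : G}

theorem tb_ne (m : MinC K a b c) (t : AT K a b c) : ∃ t ∈ TA K b a, t ≠ 1 := by
  by_contra hc
  have h := m.fr
  have h1 : TA K b a = ⊥ := by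
    rw [eq_bot_iff]
    intro x hx
    by_contra hx1
    exact hc ⟨x, hx, fun e => hx1 (by rw [e]; exact Subgroup.one_mem _)⟩
  have h2 := ta_ind h.swap t.swap.ta
  rw [h1, Subgroup.relIndex_bot_left] at h2
  have h3 : Finite (Cz K b) := Nat.finite_of_card_ne_zero h2
  exact m.nlf (lf_of_finite shu h h3)

end Pool.Agent.FourGp.H8
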